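import Pool.Agent.Q161.SX.Stm

set_option autoImplicit false

/-!
# Project SX, job FIN: the final count
-/

namespace Pool.Agent.Q251.SX

open Polynomial NumberField IsDedekindDomain Finset
open Pool.Agent.Q51.EL Pool.Agent.Q161.SX

universe v

open Classical in
theorem mem_bind (s : Finset ℕ) (q : ℤ) :
    q ∈ (s >>= fun a : ℕ => (pure (a : ℤ) : Finset ℤ)) ↔ ∃ a ∈ s, (a:ℤ) = q := by
  rw [bind_pure_comp, Finset.fmap_def]
  exact @Finset.mem_image ℕ ℤ (fun a b => propDecidable (a = b)) (fun a : ℕ => (a : ℤ)) s q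

theorem Gf_mono (f : ℤ[X]) {Y X : ℝ} (h : Y ≤ X) : Gf f Y ≤ Gf f X := by
  classical
  unfold Gf
  have hmem : ∀ (Z : ℝ) (q : ℤ), (q ∈ (pr Z >>= fun a => pure (a : ℤ) : Finset ℤ)) ↔
      ∃ a ∈ pr Z, (a : ℤ) = q := fun Z q => mem_bind (pr Z) q
  apply Finset.sum_le_sum_of_subset_of_nonneg
  · intro q hq
    rw [Finset.mem_filter] at hq ⊢
    refine ⟨?_, hq.2⟩
    obtain ⟨a, ha, rfl⟩ := (hmem Y q).1 hq.1
    refine (hmem X a).2 ⟨a, ?_, rfl⟩
    simp only [pr, Finset.mem_filter, Finset.mem_Icc] at ha ⊢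
    exact ⟨⟨ha.1.1, ha.1.2.trans (Nat.floor_le_floor h)⟩, ha.2⟩
  · intro q hq _
    rw [Finset.mem_filter] at hq
    obtain ⟨a, ha, rfl⟩ := (hmem X q).1 hq.1
    have : (0:ℝ) ≤ ((a : ℤ) : ℝ) := by positivity
    positivity

theorem exists_L (f : ℤ[X]) (hf : Irreducible (f.map (Int.castRingHom ℚ))) :
    ∃ (L : Type) (_ : Field L) (_ : NumberField L) (θ : L), Setup f L θ := by
  have : Fact (Irreducible (f.map (Int.castRingHom ℚ))) := ⟨hf⟩
  have h0 : f.map (Int.castRingHom ℚ) ≠ 0 := hf.ne_zero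
  have h1 : FiniteDimensional ℚ (AdjoinRoot (f.map (Int.castRingHom ℚ))) :=
    (AdjoinRoot.powerBasis h0).finite
  have h2 : CharZero (AdjoinRoot (f.map (Int.castRingHom ℚ))) :=
    charZero_of_injective_algebraMap (algebraMap ℚ _).injective
  have hA : (AdjoinRoot.instAlgebra _ : Algebra ℚ (AdjoinRoot (f.map (Int.castRingHom ℚ)))) =
      DivisionRing.toRatAlgebra := Subsingleton.elim _ _
  have h3 : NumberField (AdjoinRoot (f.map (Int.castRingHom ℚ))) :=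
    { to_charZero := h2
      to_finiteDimensional := by convert h1 }
  refine ⟨AdjoinRoot (f.map (Int.castRingHom ℚ)), inferInstance, h3, AdjoinRoot.root _,
    ⟨hf, ?_, ?_⟩⟩
  · have e := AdjoinRoot.eval₂_root (f.map (Int.castRingHom ℚ))
    rw [eval₂_map] at e
    rw [aeval_def, ← e]
    congr 1
  · have e := (AdjoinRoot.powerBasis h0).finrank
    rw [AdjoinRoot.powerBasis_dim, natDegree_map_eq_of_injective
      (RingHom.injective_int (Int.castRingHom ℚ))] at e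
    rw [← e]

/-- a squarefree integer is determined by its sign, the primes not dividing `B` and the gcd with `B` -/
theorem eq_of_data {B : ℕ} {D D' : ℤ} (hD : Squarefree D) (hD' : Squarefree D')
    (hs : Int.sign D = Int.sign D') (hg : Nat.gcd D.natAbs B = Nat.gcd D'.natAbs B)
    (hp : ∀ l : ℕ, l.Prime → ¬ l ∣ B → ((l : ℤ) ∣ D ↔ (l : ℤ) ∣ D')) : D = D' := by
  have h1 : Squarefree D.natAbs := Int.squarefree_natAbs.2 hD
  have h2 : Squarefree D'.natAbs := Int.squarefree_natAbs.2 hD'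
  have key : D.natAbs = D'.natAbs := by
    apply (Nat.Squarefree.ext_iff h1 h2).2
    intro l hl
    by_cases hlB : l ∣ B
    · constructor
      · intro h
        have := Nat.dvd_gcd h hlB
        rw [hg] at this
        exact this.trans (Nat.gcd_dvd_left _ _)
      · intro h
        have := Nat.dvd_gcd h hlB
        rw [← hg] at this
        exact this.trans (Nat.gcd_dvd_left _ _)
    · have := hp l hl hlB
      rwa [Int.natCast_dvd, Int.natCast_dvd] at this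
  rw [← Int.sign_mul_natAbs D, ← Int.sign_mul_natAbs D', hs, key]

/-- the count -/
theorem count (f : ℤ[X]) (L : Type) [Field L] [NumberField L]
    (A : Type) [Field A] [Algebra ℚ A] (B0 B N : ℕ) (C : ℝ)
    (T : Fin N → Set (𝓞 L)) (hB : B ≠ 0)
    (hD : ∀ (D : ℤ) (M : Type v) [Field M] (S : Sec f A M), Squarefree D → S.Good D B0 →
      ∃ k, ∃ α ∈ T k, (∀ l : ℕ, l.Prime → ¬ l ∣ B → ((l : ℤ) ∣ D ↔
          ∃ v : HeightOneSpectrum (𝓞 L), Abv v l ∧ α ∈ v.asIdeal)) ∧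
        ∀ σ : L →+* ℂ, ‖σ (α : L)‖ ≤ C * (D.natAbs : ℝ) ^ ((1 : ℝ) / f.natDegree))
    (X Y : ℝ) (hY : ∀ m : ℝ, 0 ≤ m → m ≤ X → C * m ^ ((1 : ℝ) / f.natDegree) ≤ Y)
    (hfin : ∀ k, {β ∈ T k | ∀ σ : L →+* ℂ, ‖σ (β : L)‖ ≤ Y}.Finite) (R : ℝ)
    (hR : ∀ k, (({β ∈ T k | ∀ σ : L →+* ℂ, ‖σ (β : L)‖ ≤ Y}.ncard : ℕ) : ℝ) ≤ R) :
    (({D : ℤ | (D.natAbs : ℝ) ≤ X ∧ Squarefree D ∧
      ∃ (M : Type v) (_ : Field M) (S : Sec f A M), S.Good D B0}.ncard : ℕ) : ℝ) ≤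
    N * (3 * (B + 1) * R) := by
  classical
  have hsub : {D : ℤ | (D.natAbs : ℝ) ≤ X ∧ Squarefree D ∧
      ∃ (M : Type v) (_ : Field M) (S : Sec f A M), S.Good D B0} ⊆
      ⋃ k : Fin N, {D : ℤ | (D.natAbs : ℝ) ≤ X ∧ Squarefree D ∧ ∃ α ∈ T k,
        (∀ l : ℕ, l.Prime → ¬ l ∣ B → ((l : ℤ) ∣ D ↔
          ∃ v : HeightOneSpectrum (𝓞 L), Abv v l ∧ α ∈ v.asIdeal)) ∧
        ∀ σ : L →+* ℂ, ‖σ (α : L)‖ ≤ Y} := by
    rintro D ⟨h1, h2, M, _, S, h3⟩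
    obtain ⟨k, α, hα, h4, h5⟩ := hD D M S h2 h3
    rw [Set.mem_iUnion]
    exact ⟨k, h1, h2, α, hα, h4, fun σ => (h5 σ).trans (hY _ (Nat.cast_nonneg _) h1)⟩
  have hE : ∀ k : Fin N, {D : ℤ | (D.natAbs : ℝ) ≤ X ∧ Squarefree D ∧ ∃ α ∈ T k,
        (∀ l : ℕ, l.Prime → ¬ l ∣ B → ((l : ℤ) ∣ D ↔
          ∃ v : HeightOneSpectrum (𝓞 L), Abv v l ∧ α ∈ v.asIdeal)) ∧
        ∀ σ : L →+* ℂ, ‖σ (α : L)‖ ≤ Y}.Finite ∧
      (({D : ℤ | (D.natAbs : ℝ) ≤ X ∧ Squarefree D ∧ ∃ α ∈ T k,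
        (∀ l : ℕ, l.Prime → ¬ l ∣ B → ((l : ℤ) ∣ D ↔
          ∃ v : HeightOneSpectrum (𝓞 L), Abv v l ∧ α ∈ v.asIdeal)) ∧
        ∀ σ : L →+* ℂ, ‖σ (α : L)‖ ≤ Y}.ncard : ℕ) : ℝ) ≤ 3 * (B + 1) * R := by
    intro k
    obtain ⟨E, hEdef⟩ : ∃ E : Set ℤ, E = {D : ℤ | (D.natAbs : ℝ) ≤ X ∧ Squarefree D ∧ ∃ α ∈ T k,
        (∀ l : ℕ, l.Prime → ¬ l ∣ B → ((l : ℤ) ∣ D ↔
          ∃ v : HeightOneSpectrum (𝓞 L), Abv v l ∧ α ∈ v.asIdeal)) ∧
        ∀ σ : L →+* ℂ, ‖σ (α : L)‖ ≤ Y} := ⟨_, rfl⟩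
    rw [← hEdef]
    have hch : ∀ D : ℤ, ∃ α : 𝓞 L, D ∈ E → (α ∈ T k ∧ (∀ l : ℕ, l.Prime → ¬ l ∣ B → ((l : ℤ) ∣ D ↔
          ∃ v : HeightOneSpectrum (𝓞 L), Abv v l ∧ α ∈ v.asIdeal)) ∧
        ∀ σ : L →+* ℂ, ‖σ (α : L)‖ ≤ Y) := by
      intro D
      by_cases h : D ∈ E
      · have h' := h
        rw [hEdef] at h'
        obtain ⟨_, _, α, h1, h2, h3⟩ := h'
        exact ⟨α, fun _ => ⟨h1, h2, h3⟩⟩
      · exact ⟨0, fun h' => absurd h' h⟩
    choose a ha using hch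
    have hmaps : ∀ D ∈ E, (Int.sign D, Nat.gcd D.natAbs B, a D) ∈
        ((({-1, 0, 1} : Finset ℤ) : Set ℤ) ×ˢ (((Finset.range (B + 1) : Finset ℕ) : Set ℕ) ×ˢ
          {β ∈ T k | ∀ σ : L →+* ℂ, ‖σ (β : L)‖ ≤ Y})) := by
      intro D hDE
      refine ⟨?_, ?_, (ha D hDE).1, (ha D hDE).2.2⟩
      · rcases lt_trichotomy D 0 with h | h | h
        · simp [Int.sign_eq_neg_one_of_neg h]
        · simp [h]
        · simp [Int.sign_eq_one_of_pos h]
      · simp only [Finset.coe_range, Set.mem_Iio]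
        have := Nat.gcd_le_right D.natAbs (Nat.pos_of_ne_zero hB)
        omega
    have hinj : Set.InjOn (fun D : ℤ => (Int.sign D, Nat.gcd D.natAbs B, a D)) E := by
      intro D hDE D' hDE' h
      simp only [Prod.mk.injEq] at h
      have e1 : Squarefree D := by rw [hEdef] at hDE; exact hDE.2.1
      have e2 : Squarefree D' := by rw [hEdef] at hDE'; exact hDE'.2.1
      refine eq_of_data (B := B) e1 e2 h.1 h.2.1 ?_
      intro l hl hlB
      rw [(ha D hDE).2.1 l hl hlB, (ha D' hDE').2.1 l hl hlB, h.2.2]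
    have hfinT : ((({-1, 0, 1} : Finset ℤ) : Set ℤ) ×ˢ (((Finset.range (B + 1) : Finset ℕ) : Set ℕ) ×ˢ
          {β ∈ T k | ∀ σ : L →+* ℂ, ‖σ (β : L)‖ ≤ Y})).Finite :=
      (Finset.finite_toSet _).prod ((Finset.finite_toSet _).prod (hfin k))
    refine ⟨Set.Finite.of_injOn (fun D hD' => hmaps D hD') hinj hfinT, ?_⟩
    have hcard := Set.ncard_le_ncard_of_injOn (fun D : ℤ => (Int.sign D, Nat.gcd D.natAbs B, a D))
      (fun D hD' => hmaps D hD') hinj hfinT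
    rw [Set.ncard_prod, Set.ncard_prod, Set.ncard_coe_finset, Set.ncard_coe_finset,
      Finset.card_range] at hcard
    have h3 : ({-1, 0, 1} : Finset ℤ).card = 3 := by decide
    rw [h3] at hcard
    have hcard' : ((E.ncard : ℕ) : ℝ) ≤ ((3 * ((B + 1) *
        {β ∈ T k | ∀ σ : L →+* ℂ, ‖σ (β : L)‖ ≤ Y}.ncard) : ℕ) : ℝ) := by exact_mod_cast hcard
    refine hcard'.trans ?_
    push_cast
    rw [← mul_assoc]
    exact mul_le_mul_of_nonneg_left (hR k) (by positivity)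
  have h1 := Set.ncard_le_ncard hsub (Set.finite_iUnion fun k => (hE k).1)
  have h2 := Set.ncard_iUnion_le_of_fintype (fun k : Fin N => {D : ℤ | (D.natAbs : ℝ) ≤ X ∧ Squarefree D ∧ ∃ α ∈ T k,
        (∀ l : ℕ, l.Prime → ¬ l ∣ B → ((l : ℤ) ∣ D ↔
          ∃ v : HeightOneSpectrum (𝓞 L), Abv v l ∧ α ∈ v.asIdeal)) ∧
        ∀ σ : L →+* ℂ, ‖σ (α : L)‖ ≤ Y})
  have h3 := h1.trans h2
  have h4 : (({D : ℤ | (D.natAbs : ℝ) ≤ X ∧ Squarefree D ∧
      ∃ (M : Type v) (_ : Field M) (S : Sec f A M), S.Good D B0}.ncard : ℕ) : ℝ) ≤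
      ∑ k : Fin N, (({D : ℤ | (D.natAbs : ℝ) ≤ X ∧ Squarefree D ∧ ∃ α ∈ T k,
        (∀ l : ℕ, l.Prime → ¬ l ∣ B → ((l : ℤ) ∣ D ↔
          ∃ v : HeightOneSpectrum (𝓞 L), Abv v l ∧ α ∈ v.asIdeal)) ∧
        ∀ σ : L →+* ℂ, ‖σ (α : L)‖ ≤ Y}.ncard : ℕ) : ℝ) := by exact_mod_cast h3
  refine h4.trans ((Finset.sum_le_sum fun k _ => (hE k).2).trans ?_)
  rw [Finset.sum_const, Finset.card_univ, Fintype.card_fin, nsmul_eq_mul]

/-- real numbers: the size of the box -/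
theorem box {n : ℕ} (hn : 6 ≤ n) {C : ℝ} (hC : 0 < C) : ∃ X0 : ℝ, 3 ≤ X0 ∧ ∀ X : ℝ, X0 ≤ X →
    3 ≤ C * X ^ ((1 : ℝ) / n) + 3 ∧ C * X ^ ((1 : ℝ) / n) + 3 ≤ X ∧
    (C * X ^ ((1 : ℝ) / n) + 3) ^ n ≤ (C + 3) ^ n * X ∧
    1 / (2 * (n : ℝ)) * Real.log X ≤ Real.log (C * X ^ ((1 : ℝ) / n) + 3) := by
  have hn0 : (0:ℝ) < n := by exact_mod_cast (by omega : 0 < n)
  have hn6 : (6:ℝ) ≤ n := by exact_mod_cast hn
  refine ⟨max 3 (max ((C + 3) ^ 2) (Real.exp (2 * n * |Real.log C|))), le_max_left _ _, ?_⟩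
  intro X hX
  have h3 : (3:ℝ) ≤ X := (le_max_left _ _).trans hX
  have h4 : (C + 3) ^ 2 ≤ X := ((le_max_left _ _).trans (le_max_right _ _)).trans hX
  have h5 : Real.exp (2 * n * |Real.log C|) ≤ X :=
    ((le_max_right _ _).trans (le_max_right _ _)).trans hX
  have hX0 : 0 < X := by linarith
  have hX1 : 1 ≤ X := by linarith
  have hp : 1 ≤ X ^ ((1 : ℝ) / n) := Real.one_le_rpow hX1 (by positivity)
  have hle : C * X ^ ((1 : ℝ) / n) + 3 ≤ (C + 3) * X ^ ((1 : ℝ) / n) := by nlinarith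
  refine ⟨by nlinarith [mul_pos hC (by linarith : (0:ℝ) < X ^ ((1 : ℝ) / n))], ?_, ?_, ?_⟩
  · refine hle.trans ?_
    have h6 : X ^ ((1 : ℝ) / n) ≤ X ^ ((1 : ℝ) / 2) := by
      apply Real.rpow_le_rpow_of_exponent_le hX1
      exact one_div_le_one_div_of_le (by norm_num) (by linarith)
    have h7 : C + 3 ≤ X ^ ((1 : ℝ) / 2) := by
      rw [← Real.sqrt_eq_rpow]
      exact Real.le_sqrt_of_sq_le h4
    calc (C + 3) * X ^ ((1 : ℝ) / n) ≤ X ^ ((1 : ℝ) / 2) * X ^ ((1 : ℝ) / 2) :=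
          mul_le_mul h7 h6 (by positivity) (by positivity)
      _ = X := by rw [← Real.rpow_add hX0]; norm_num
  · calc (C * X ^ ((1 : ℝ) / n) + 3) ^ n ≤ ((C + 3) * X ^ ((1 : ℝ) / n)) ^ n :=
          pow_le_pow_left₀ (by positivity) hle n
      _ = (C + 3) ^ n * X := by
          rw [mul_pow]
          congr 1
          rw [← Real.rpow_natCast, ← Real.rpow_mul hX0.le, one_div, inv_mul_cancel₀ hn0.ne',
            Real.rpow_one]
  · have h8 : Real.log C + 1 / n * Real.log X ≤ Real.log (C * X ^ ((1 : ℝ) / n) + 3) := by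
      rw [← Real.log_rpow hX0, ← Real.log_mul hC.ne' (by positivity)]
      exact Real.log_le_log (by positivity) (by linarith)
    have h9 : 2 * n * |Real.log C| ≤ Real.log X := by
      rw [← Real.log_exp (2 * n * |Real.log C|)]
      exact Real.log_le_log (Real.exp_pos _) h5
    have h10 : - Real.log C ≤ |Real.log C| := neg_le_abs _
    have h11 : |Real.log C| ≤ 1 / (2 * (n:ℝ)) * Real.log X := by
      rw [one_div, ← div_eq_inv_mul, le_div_iff₀ (by positivity)]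
      linarith
    have h12 : 1 / (n:ℝ) * Real.log X = 1 / (2 * (n:ℝ)) * Real.log X +
        1 / (2 * (n:ℝ)) * Real.log X := by field_simp; ring
    linarith

theorem fin_count : S_AR.{v} → S_CORE → S_GG → S_LOW → S_FIN.{v} := by
  intro hAR hCORE hGG hLOW f hf hev h6 A _ _ _ B0 hB0
  obtain ⟨L, i1, i2, θ, hset⟩ := exists_L f hf
  obtain ⟨B, C, N, T, hB, hC, hTy, hD⟩ := hAR f L θ hset (by omega) A B0 hB0
  obtain ⟨c, C1, hc, hcore⟩ := hCORE L (by rw [hset.deg]; omega) B hB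
  obtain ⟨C2, hC2⟩ := hGG f L θ hset
  obtain ⟨c3, X3, hc3, hlow⟩ := hLOW f hf
  obtain ⟨X4, hX4, hbox⟩ := box h6 hC
  have hn0 : (0:ℝ) < f.natDegree := by exact_mod_cast (by omega : 0 < f.natDegree)
  obtain ⟨K, hK⟩ : ∃ K : ℝ, K = N * (3 * (B + 1) * (max C1 1 * (C + 3) ^ f.natDegree *
    Real.exp C2 * (1 / (2 * (f.natDegree : ℝ))) ^ (-(1 + c)))) := ⟨_, rfl⟩
  have hK0 : 0 ≤ K := by
    rw [hK]
    have : (0:ℝ) ≤ max C1 1 := le_max_of_le_right zero_le_one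
    positivity
  refine ⟨c, K / c3, max X3 X4, hc, ?_⟩
  intro X hX
  have hX3 : X3 ≤ X := (le_max_left _ _).trans hX
  have hX4' : X4 ≤ X := (le_max_right _ _).trans hX
  obtain ⟨hY3, hYX, hYn, hlogY⟩ := hbox X hX4'
  have hX3' : (3:ℝ) ≤ X := hX4.trans hX4'
  have hX0 : 0 < X := by linarith
  have hlogX : 0 < Real.log X := Real.log_pos (by linarith)
  obtain ⟨Y, hYdef⟩ : ∃ Y : ℝ, Y = C * X ^ ((1 : ℝ) / f.natDegree) + 3 := ⟨_, rfl⟩
  rw [← hYdef] at hY3 hYX hYn hlogY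
  have hR : ∀ k, (({β ∈ T k | ∀ σ : L →+* ℂ, ‖σ (β : L)‖ ≤ Y}.ncard : ℕ) : ℝ) ≤
      max C1 1 * ((C + 3) ^ f.natDegree * X) * Real.exp (Gf f X + C2) *
        (1 / (2 * (f.natDegree : ℝ)) * Real.log X) ^ (-(1 + c)) := by
    intro k
    have h := (hcore (T k) (hTy k) Y hY3).2
    refine h.trans ?_
    rw [hset.deg]
    have hmax : (0:ℝ) ≤ max C1 1 := le_max_of_le_right zero_le_one
    have hlY : 0 < Real.log Y := Real.log_pos (by linarith)
    have e1 : C1 * Y ^ f.natDegree ≤ max C1 1 * ((C + 3) ^ f.natDegree * X) :=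
      mul_le_mul (le_max_left _ _) hYn (by positivity) hmax
    have e2 : Real.exp (GN L Y) ≤ Real.exp (Gf f X + C2) :=
      Real.exp_le_exp.2 ((hC2 Y).trans (by linarith [Gf_mono f hYX]))
    have e3 : Real.log Y ^ (-(1 + c)) ≤
        (1 / (2 * (f.natDegree : ℝ)) * Real.log X) ^ (-(1 + c)) :=
      Real.rpow_le_rpow_of_nonpos (by positivity) hlogY (by linarith)
    have e4 : C1 * Y ^ f.natDegree * Real.exp (GN L Y) ≤
        max C1 1 * ((C + 3) ^ f.natDegree * X) * Real.exp (Gf f X + C2) := by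
      refine (mul_le_mul_of_nonneg_right e1 (Real.exp_pos _).le).trans ?_
      exact mul_le_mul_of_nonneg_left e2 (by positivity)
    refine (mul_le_mul_of_nonneg_right e4 (by positivity)).trans ?_
    exact mul_le_mul_of_nonneg_left e3 (by positivity)
  have hcount := count.{v} f L A B0 B N C T hB hD X Y (by
      intro m hm0 hmX
      rw [hYdef]
      have : m ^ ((1 : ℝ) / f.natDegree) ≤ X ^ ((1 : ℝ) / f.natDegree) :=
        Real.rpow_le_rpow hm0 hmX (by positivity)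
      nlinarith [mul_le_mul_of_nonneg_left this hC.le])
    (fun k => (hcore (T k) (hTy k) Y hY3).1) _ hR
  refine hcount.trans ?_
  have hl := hlow X hX3
  obtain ⟨M, hM⟩ : ∃ M : ℝ, M = (({D : ℤ | (D.natAbs : ℝ) ≤ X ∧ Squarefree D ∧
    ELS f D}.ncard : ℕ) : ℝ) := ⟨_, rfl⟩
  rw [← hM] at hl ⊢
  have hl' : X * Real.exp (Gf f X) ≤ Real.log X * M / c3 := by
    rw [le_div_iff₀ hc3]
    have : c3 * X / Real.log X * Real.exp (Gf f X) * Real.log X ≤ M * Real.log X :=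
      mul_le_mul_of_nonneg_right hl hlogX.le
    have e : c3 * X / Real.log X * Real.exp (Gf f X) * Real.log X =
        X * Real.exp (Gf f X) * c3 := by field_simp
    rw [e] at this
    linarith
  have e5 : (N : ℝ) * (3 * (B + 1) * (max C1 1 * ((C + 3) ^ f.natDegree * X) *
      Real.exp (Gf f X + C2) * (1 / (2 * (f.natDegree : ℝ)) * Real.log X) ^ (-(1 + c)))) =
      K * Real.log X ^ (-(1 + c)) * (X * Real.exp (Gf f X)) := by
    rw [hK, Real.exp_add, Real.mul_rpow (by positivity) hlogX.le]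
    ring
  rw [e5]
  refine (mul_le_mul_of_nonneg_left hl' (by positivity)).trans (le_of_eq ?_)
  have e6 : Real.log X ^ (-c) = Real.log X ^ (-(1 + c)) * Real.log X := by
    rw [← Real.rpow_add_one hlogX.ne']
    congr 1
    ring
  rw [e6]
  field_simp

end Pool.Agent.Q251.SX
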